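import Pool.Agent.Q17.TC.Stm4

/-!
# Project TC, job TBC: transport of a block along `N_{N_G(D)}(D) = N_G(D)`
-/

set_option autoImplicit false

open scoped BigOperators Classical
open Pool.Agent.Helper884 Representation Pool.Agent.H254R3.IN Pool.Agent.Y62 Pool.Agent.Q21.CO

noncomputable section

namespace Pool.Agent.Q222.TC

open Pool.Agent.Q17.TC

section transport

variable {L K : Type} [Group L] [Group K]

theorem irr_comp (e : L ≃* K) {χ : K → ℂ} (h : IsIrr χ) : IsIrr (fun x => χ (e x)) := by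
  obtain ⟨V, _, _, _, ρ, hr, rfl⟩ := h
  let ρ' : Representation ℂ L V := ρ.comp e.toMonoidHom
  refine ⟨V, _, _, inferInstance, ρ', ?_, rfl⟩
  let f : Subrepresentation ρ' ≃o Subrepresentation ρ :=
    { toFun := fun S => ⟨S.toSubmodule, fun g v hv => by
        have h1 : ρ (e (e.symm g)) v ∈ S.toSubmodule := S.apply_mem_toSubmodule (e.symm g) hv
        rwa [MulEquiv.apply_symm_apply] at h1⟩
      invFun := fun S => ⟨S.toSubmodule, fun g v hv => S.apply_mem_toSubmodule (e g) hv⟩
      left_inv := fun _ => rfl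
      right_inv := fun _ => rfl
      map_rel_iff' := Iff.rfl }
  exact f.isSimpleOrder_iff.mpr hr

theorem conj_iff (e : L ≃* K) {x y : L} : IsConj x y ↔ IsConj (e x) (e y) := by
  constructor
  · intro h
    exact e.toMonoidHom.map_isConj h
  · intro h
    have h1 := e.symm.toMonoidHom.map_isConj h
    simpa using h1

theorem omega_comp (e : L ≃* K) (χ : K → ℂ) (x : L) :
    omega (fun x => χ (e x)) x = omega χ (e x) := by
  unfold omega
  have h1 : Nat.card {y : L // IsConj x y} = Nat.card {y : K // IsConj (e x) y} :=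
    Nat.card_congr (e.toEquiv.subtypeEquiv (fun y => conj_iff e))
  rw [h1]
  simp only [map_one]

/-- the transported set -/
def tb (e : L ≃* K) (b₀ : Set (K → ℂ)) : Set (L → ℂ) := {θ | ∃ θ₀ ∈ b₀, θ = fun x => θ₀ (e x)}

theorem tb_block (e : L ≃* K) {O : ValuationSubring ℂ} {b₀ : Set (K → ℂ)} (h : IsBlock O b₀) :
    IsBlock O (tb e b₀) := by
  obtain ⟨χ₀, h0, rfl⟩ := h
  refine ⟨fun x => χ₀ (e x), irr_comp e h0, ?_⟩
  ext θ
  constructor
  · rintro ⟨θ₀, ⟨h1, h2⟩, rfl⟩
    refine ⟨irr_comp e h1, fun x => ?_⟩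
    rw [omega_comp, omega_comp]
    exact h2 (e x)
  · rintro ⟨h1, h2⟩
    refine ⟨fun y => θ (e.symm y), ⟨irr_comp e.symm h1, fun y => ?_⟩, ?_⟩
    · have h3 := h2 (e.symm y)
      rw [omega_comp, MulEquiv.apply_symm_apply] at h3
      rw [omega_comp]
      exact h3
    · funext x
      simp only [MulEquiv.symm_apply_apply]

theorem tb_coeff (e : L ≃* K) (b₀ : Set (K → ℂ)) (x : L) :
    blockCoeff (tb e b₀) x = blockCoeff b₀ (e x) := by
  unfold blockCoeff
  have h1 : Nat.card L = Nat.card K := Nat.card_congr e.toEquiv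
  have h2 : tb e b₀ = (fun (θ₀ : K → ℂ) => fun x => θ₀ (e x)) '' b₀ := by
    ext θ
    constructor
    · rintro ⟨θ₀, h3, rfl⟩
      exact ⟨θ₀, h3, rfl⟩
    · rintro ⟨θ₀, h3, rfl⟩
      exact ⟨θ₀, h3, rfl⟩
  have hinj : Set.InjOn (fun (θ₀ : K → ℂ) => fun x => θ₀ (e x)) b₀ := by
    intro a _ b _ hab
    funext y
    have h3 := congrFun hab (e.symm y)
    simpa using h3
  rw [h1, h2, finsum_mem_image hinj]
  simp only [map_one, map_inv]

/-- the map between centralisers -/
def cmap (e : L ≃* K) (x : L) : Subgroup.centralizer ({x} : Set L) →*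
    Subgroup.centralizer ({e x} : Set K) where
  toFun c := ⟨e c, by
    have h := c.2
    rw [Subgroup.mem_centralizer_singleton_iff] at h ⊢
    rw [← map_mul, h, map_mul]⟩
  map_one' := by
    apply Subtype.ext
    exact map_one e
  map_mul' a b := by
    apply Subtype.ext
    exact map_mul e _ _

theorem mem_cent (e : L ≃* K) {x y : L} (h : e y ∈ Subgroup.centralizer ({e x} : Set K)) :
    y ∈ Subgroup.centralizer ({x} : Set L) := by
  rw [Subgroup.mem_centralizer_singleton_iff] at h ⊢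
  rw [← map_mul, ← map_mul] at h
  exact e.injective h

theorem tb_defect (e : L ≃* K) {p : ℕ} {O : ValuationSubring ℂ} {b₀ : Set (K → ℂ)}
    {D₀ : Subgroup K} (h : IsDefectGroup p O b₀ D₀) :
    IsDefectGroup p O (tb e b₀) (D₀.comap e.toMonoidHom) := by
  obtain ⟨x, hx, h2, h3⟩ := h
  obtain ⟨x', rfl⟩ := e.surjective x
  obtain ⟨P, hP⟩ := hx
  refine ⟨x', ?_, ?_, ?_⟩
  · have hinj : Function.Injective (cmap e x') := by
      intro a b hab
      apply Subtype.ext
      apply e.injective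
      exact congrArg Subtype.val hab
    have hsur : Function.Surjective (cmap e x') := by
      intro c
      obtain ⟨y, hy⟩ := e.surjective (c : K)
      refine ⟨⟨y, mem_cent e (by rw [hy]; exact c.2)⟩, ?_⟩
      apply Subtype.ext
      exact hy
    have hle : (P : Subgroup (Subgroup.centralizer ({e x'} : Set K))) ≤ (cmap e x').range := by
      rw [MonoidHom.range_eq_top.mpr hsur]
      exact le_top
    refine ⟨P.comapOfInjective (cmap e x') hinj hle, ?_⟩
    rw [Sylow.coe_comapOfInjective, hP]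
    ext y
    constructor
    · rintro ⟨c, hc, hcy⟩
      have hcy' : (c : K) = e y := hcy
      refine ⟨⟨y, mem_cent e (by rw [← hcy']; exact c.2)⟩, ?_, rfl⟩
      show cmap e x' ⟨y, _⟩ ∈ (P : Subgroup _)
      have e1 : cmap e x' ⟨y, mem_cent e (by rw [← hcy']; exact c.2)⟩ = c :=
        Subtype.ext hcy'.symm
      rw [e1]
      exact hc
    · rintro ⟨c, hc, rfl⟩
      exact ⟨cmap e x' c, hc, rfl⟩
  · rintro θ ⟨θ₀, hθ, rfl⟩
    rw [omega_comp]
    exact h2 θ₀ hθ
  · rw [tb_coeff]
    exact h3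

theorem omega_sum [Fintype K] {θ : K → ℂ} (hθ : IsIrr θ) (x : K) :
    ∑ᶠ z : {z : K // IsConj x z}, θ z / θ 1 = omega θ x := by
  have h1 : ∀ z : {z : K // IsConj x z}, θ z / θ 1 = θ x / θ 1 := by
    intro z
    rw [hθ.isConj z.2]
  rw [finsum_congr h1, finsum_eq_sum_of_fintype, Finset.sum_const, Finset.card_univ,
    nsmul_eq_mul, ← Nat.card_eq_fintype_card]
  unfold omega
  ring

end transport

theorem nonunits_sub' {O : ValuationSubring ℂ} {a b : ℂ} (ha : a ∈ O.nonunits)
    (hb : b ∈ O.nonunits) : a - b ∈ O.nonunits := by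
  rw [ValuationSubring.mem_nonunits_iff] at ha hb ⊢
  exact Valuation.map_sub_lt _ ha hb

theorem t_TBC : S_TBC := by
  intro G _ _ p _ O _ D b₀ hb hD
  set e := eN (H := NN D) (le_NN D) le_rfl with he
  have hcoe : ∀ y : NN (DD D), e y = (y : NN D) := fun y => Subtype.ext rfl
  have h1 := tb_block e hb
  have h2 := tb_defect e hD
  refine ⟨h1, ?_, ?_⟩
  · have e1 : (DD D).comap e.toMonoidHom = (DD D).subgroupOf (NN (DD D)) := by
      ext y
      show e y ∈ DD D ↔ (y : NN D) ∈ DD D
      rw [hcoe]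
    rw [e1] at h2
    exact h2
  · rintro χ hχ θ ⟨θ₀, hθ₀, rfl⟩ x
    obtain ⟨χ₀, hχ₀, hb'⟩ := hb
    rw [hb'] at hχ hθ₀
    let E : {y : NN (DD D) // IsConj x (y : NN D)} ≃ {z : NN D // IsConj x z} :=
      e.toEquiv.subtypeEquiv (fun y => by
        show IsConj x (y : NN D) ↔ IsConj x (e y)
        rw [hcoe])
    have e2 : ∑ᶠ y : {y : NN (DD D) // IsConj x (y : NN D)}, θ₀ (e y) / θ₀ (e 1) =
        omega θ₀ x := by
      rw [← omega_sum hθ₀.1 x, ← finsum_comp_equiv E]
      apply finsum_congr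
      intro y
      rw [map_one]
      rfl
    have e3 : omega χ x - omega θ₀ x =
        (omega χ x - omega χ₀ x) - (omega θ₀ x - omega χ₀ x) := by ring
    show omega χ x - ∑ᶠ y : {y : NN (DD D) // IsConj x (y : NN D)}, θ₀ (e y) / θ₀ (e 1) ∈
      O.nonunits
    rw [e2, e3]
    exact nonunits_sub' (hχ.2 x) (hθ₀.2 x)

end Pool.Agent.Q222.TC
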