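import Pool.Agent.Q17.TC.Stm2
import Pool.Agent.Q284.BD.Tr

/-!
# Project TC, job DET: determinants from traces of powers
-/

set_option autoImplicit false

open scoped BigOperators Classical
open Pool.Agent.Helper884 Representation Pool.Agent.H254R3.IN Pool.Agent.Y62 Pool.Agent.Q21.CO

noncomputable section

namespace Pool.Agent.Q222.TC

open Pool.Agent.Q17.TC

lemma tr_pow_roots {V : Type} [AddCommGroup V] [Module ℂ V] [FiniteDimensional ℂ V]
    (f : V →ₗ[ℂ] V) (k : ℕ) :
    LinearMap.trace ℂ V (f ^ k) = (f.charpoly.roots.map fun a => a ^ k).sum := by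
  rw [LinearMap.trace_eq_matrix_trace ℂ (Module.finBasis ℂ V), ← LinearMap.toMatrix_pow,
    Pool.Agent.Q284.BD.trace_pow, LinearMap.charpoly_toMatrix]

theorem t_DET : S_DET := by
  intro V V' _ _ _ _ _ _ f g c h
  have h1 : f.charpoly.roots = g.charpoly.roots + Multiset.replicate c 1 := by
    ext a
    have h2 := Pool.Agent.Q284.BD.mult_eq (ι := Unit) (fun _ => f.charpoly.roots) (fun _ => 1)
      (g.charpoly.roots + Multiset.replicate c 1) (fun k => by
        have h3 := h k
        rw [tr_pow_roots, tr_pow_roots] at h3
        simp only [Finset.univ_unique, Finset.sum_singleton, Int.cast_one, one_mul]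
        rw [h3, Multiset.map_add, Multiset.sum_add, Multiset.map_replicate, one_pow,
          Multiset.sum_replicate, nsmul_eq_mul, mul_one]) a
    simp only [Finset.univ_unique, Finset.sum_singleton, one_mul] at h2
    exact_mod_cast h2
  rw [Module.End.det_eq_prod_roots_charpoly_of_splits (IsAlgClosed.splits f.charpoly),
    Module.End.det_eq_prod_roots_charpoly_of_splits (IsAlgClosed.splits g.charpoly), h1,
    Multiset.prod_add, Multiset.prod_replicate, one_pow, mul_one]

end Pool.Agent.Q222.TC
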