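import Pool.Agent.Q17.TC.Stm2
import Pool.Agent.Q277.TC.Rep
import Pool.Agent.Q277.TC.Ort

/-!
# Project TC, job INT: the scalars of DEC are integral
-/

set_option autoImplicit false

open scoped BigOperators Classical
open Pool.Agent.Helper884 Representation Pool.Agent.H254R3.IN Pool.Agent.Y62 Pool.Agent.Q21.CO

noncomputable section

namespace Pool.Agent.Q222.TC

open Pool.Agent.Q17.TC

/-- the roots of the characteristic polynomial of an endomorphism of finite order -/
lemma root_pow {V : Type} [AddCommGroup V] [Module ℂ V] [FiniteDimensional ℂ V]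
    {f : Module.End ℂ V} {n : ℕ} (hf : f ^ n = 1) {μ : ℂ} (hμ : μ ∈ (LinearMap.charpoly f).roots) :
    μ ^ n = 1 := by
  have h1 : (LinearMap.charpoly f).IsRoot μ := (Polynomial.mem_roots'.mp hμ).2
  have h2 := (Module.End.hasEigenvalue_iff_isRoot_charpoly f μ).mpr h1
  obtain ⟨v, hv⟩ := h2.exists_hasEigenvector
  have h3 : ∀ n : ℕ, (f ^ n) v = μ ^ n • v := fun n => by
    induction n with
    | zero => simp
    | succ n ih =>
      rw [pow_succ', Module.End.mul_apply, ih, map_smul, hv.apply_eq_smul, smul_smul, pow_succ]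
  have h4 := h3 n
  rw [hf, Module.End.one_apply] at h4
  have h6 : (μ ^ n - 1) • v = 0 := by
    rw [sub_smul, one_smul, ← h4, sub_self]
  rcases smul_eq_zero.mp h6 with h7 | h7
  · exact sub_eq_zero.1 h7
  · exact absurd h7 hv.2

lemma tr_integral {V : Type} [AddCommGroup V] [Module ℂ V] [FiniteDimensional ℂ V]
    {f : Module.End ℂ V} {n : ℕ} (hn : 0 < n) (hf : f ^ n = 1) :
    IsIntegral ℤ (LinearMap.trace ℂ V f) := by
  rw [Module.End.trace_eq_sum_roots_charpoly_of_splits (IsAlgClosed.splits _)]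
  refine IsIntegral.multiset_sum fun μ hμ => ?_
  refine IsIntegral.of_pow hn ?_
  rw [root_pow hf hμ]
  exact isIntegral_one

theorem t_INT : S_INT := by
  intro G W _ _ _ _ _ N _ ρ hρ χ hχ g u hu n hn hg hun s hs
  obtain ⟨V, _, _, _, X, hX, rfl⟩ := hχ
  have h1 := trace_So X hu
  have h2 : ∀ m : N, X.character (m * g) = s * LinearMap.trace ℂ W ((u : W →ₗ[ℂ] W) ∘ₗ ρ m) := by
    intro m
    rw [hs m, tr, LinearMap.trace_comp_comm']
  have h3 := t_ORT N W ρ hρ (u : W →ₗ[ℂ] W) (u.symm : W →ₗ[ℂ] W)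
  have h4 : LinearMap.trace ℂ (Sp ρ X) (So X hu) = s := by
    rw [h1]
    have h5 : ∑ m : N, X.character (m * g) *
        LinearMap.trace ℂ W ((u.symm : W →ₗ[ℂ] W) ∘ₗ ρ m⁻¹) =
        s * ∑ m : N, LinearMap.trace ℂ W ((u : W →ₗ[ℂ] W) ∘ₗ ρ m) *
          LinearMap.trace ℂ W (ρ m⁻¹ ∘ₗ (u.symm : W →ₗ[ℂ] W)) := by
      rw [Finset.mul_sum]
      refine Finset.sum_congr rfl fun m _ => ?_
      rw [h2, LinearMap.trace_comp_comm' (u.symm : W →ₗ[ℂ] W) (ρ m⁻¹), mul_assoc]
    rw [h5, h3]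
    have h6 : (u : W →ₗ[ℂ] W) ∘ₗ (u.symm : W →ₗ[ℂ] W) = LinearMap.id := by
      ext w
      simp
    rw [h6, LinearMap.trace_id]
    have h7 : (Module.finrank ℂ W : ℂ) ≠ 0 := finrank_ne hρ
    have h8 : (Nat.card N : ℂ) ≠ 0 := IC.cardG_ne
    field_simp
  have h5 : (So X hu) ^ n = 1 := by
    have key : ∀ (k : ℕ) (f : Sp ρ X) (w : W),
        (((So X hu) ^ k) f : W →ₗ[ℂ] V) w = (X g ^ k) (f.1 (((u.symm : W →ₗ[ℂ] W) ^ k) w)) := by
      intro k
      induction k with
      | zero => intro f w; simp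
      | succ k ih =>
        intro f w
        rw [pow_succ', Module.End.mul_apply, So_apply, ih, pow_succ' (X g), Module.End.mul_apply,
          pow_succ (u.symm : W →ₗ[ℂ] W), Module.End.mul_apply]
        rfl
    have h6 : (X g) ^ n = 1 := by rw [← map_pow, hg, map_one]
    have h7 : (u.symm : W →ₗ[ℂ] W) ^ n = 1 := by
      have h8 : (u : W →ₗ[ℂ] W) * (u.symm : W →ₗ[ℂ] W) = 1 := by
        ext w
        simp
      have h9 : (u.symm : W →ₗ[ℂ] W) * (u : W →ₗ[ℂ] W) = 1 := by
        ext w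
        simp
      have h10 : Commute (u : W →ₗ[ℂ] W) (u.symm : W →ₗ[ℂ] W) := by
        rw [Commute, SemiconjBy, h8, h9]
      have h11 := h10.mul_pow n
      rw [h8, one_pow, hun, one_mul] at h11
      exact h11.symm
    apply LinearMap.ext
    intro f
    apply Subtype.ext
    ext w
    rw [key, h6, h7]
    rfl
  rw [← h4]
  exact tr_integral hn h5

end Pool.Agent.Q222.TC
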