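import Pool.Agent.Q17.TC.Stm2
import Pool.Agent.Q222.TC.INT
import Pool.Agent.Q222.TC.DET

/-!
# Project TC, job CM: traces of commuting endomorphisms of finite order modulo `O.nonunits`
-/

set_option autoImplicit false

open scoped BigOperators Classical
open Pool.Agent.Helper884 Representation Pool.Agent.H254R3.IN Pool.Agent.Y62 Pool.Agent.Q21.CO

noncomputable section

namespace Pool.Agent.Q222.TC

open Pool.Agent.Q17.TC

lemma tr_mem {O : ValuationSubring ℂ} {V : Type} [AddCommGroup V] [Module ℂ V]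
    [FiniteDimensional ℂ V] {f : Module.End ℂ V} {n : ℕ} (hn : 0 < n) (hf : f ^ n = 1) :
    LinearMap.trace ℂ V f ∈ O := mem_of_isIntegral (tr_integral hn hf)

lemma red_pow_sum {O : ValuationSubring ℂ} {p : ℕ} [Fact p.Prime] [CharP (RF O) p] (a : ℕ)
    (S : Multiset ℂ) (hS : ∀ x ∈ S, x ∈ O) :
    S.sum ∈ O ∧ (S.map fun x => x ^ p ^ a).sum ∈ O ∧
      red O (S.map fun x => x ^ p ^ a).sum = red O S.sum ^ p ^ a := by
  haveI : ExpChar (RF O) p := ExpChar.prime Fact.out
  induction S using Multiset.induction_on with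
  | empty =>
    refine ⟨by simpa using O.zero_mem, by simpa using O.zero_mem, ?_⟩
    simp only [Multiset.map_zero, Multiset.sum_zero]
    rw [red_zero, zero_pow (pow_ne_zero a (Fact.out : p.Prime).ne_zero)]
  | cons x S ih =>
    obtain ⟨h1, h2, h3⟩ := ih (fun y hy => hS y (Multiset.mem_cons_of_mem hy))
    have hx := hS x (Multiset.mem_cons_self x S)
    have hxp : x ^ p ^ a ∈ O := pow_mem hx _
    have hred : red O (x ^ p ^ a) = red O x ^ p ^ a := by
      have : ∀ k : ℕ, red O (x ^ k) = red O x ^ k := by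
        intro k
        induction k with
        | zero => rw [pow_zero, pow_zero, red_one]
        | succ k ih => rw [pow_succ, pow_succ, red_mul (pow_mem hx _) hx, ih]
      exact this _
    refine ⟨?_, ?_, ?_⟩
    · rw [Multiset.sum_cons]
      exact add_mem hx h1
    · rw [Multiset.map_cons, Multiset.sum_cons]
      exact add_mem hxp h2
    · rw [Multiset.map_cons, Multiset.sum_cons, Multiset.sum_cons, red_add hxp h2, red_add hx h1,
        h3, hred, add_pow_expChar_pow]

lemma red_tr_pow {O : ValuationSubring ℂ} {p : ℕ} [Fact p.Prime] [CharP (RF O) p]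
    {V : Type} [AddCommGroup V] [Module ℂ V] [FiniteDimensional ℂ V] {f : Module.End ℂ V}
    {n : ℕ} (hn : 0 < n) (hf : f ^ n = 1) (a : ℕ) :
    red O (LinearMap.trace ℂ V (f ^ p ^ a)) = red O (LinearMap.trace ℂ V f) ^ p ^ a := by
  have h1 := red_pow_sum (O := O) (p := p) a (LinearMap.charpoly f).roots (fun μ hμ => by
    apply mem_of_isIntegral
    refine IsIntegral.of_pow hn ?_
    rw [root_pow hf hμ]
    exact isIntegral_one)
  have h2 := tr_pow_roots f (p ^ a)
  have h3 := Module.End.trace_eq_sum_roots_charpoly_of_splits (f := f) (IsAlgClosed.splits _)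
  rw [h2, h3]
  exact h1.2.2

theorem t_CM : S_CM := by
  intro p O hp hpO V _ _ _ A B hAB a n hn hA hB
  haveI : Fact p.Prime := ⟨hp⟩
  haveI := charP_RF hpO
  have hAB' : (A * B) ^ (p ^ a * n) = 1 := by
    rw [hAB.mul_pow, pow_mul, hA, one_pow, mul_comm (p ^ a) n, pow_mul, hB, one_pow, one_mul]
  have hpos : 0 < p ^ a * n := Nat.mul_pos (pow_pos hp.pos a) hn
  have m1 : LinearMap.trace ℂ V (A * B) ∈ O := tr_mem hpos hAB'
  have m2 : LinearMap.trace ℂ V B ∈ O := tr_mem hn hB
  refine ⟨?_, m2⟩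
  rw [← red_eq_iff m1 m2]
  have h1 := red_tr_pow (O := O) (p := p) hpos hAB' a
  have h2 := red_tr_pow (O := O) (p := p) hn hB a
  have h3 : (A * B) ^ p ^ a = B ^ p ^ a := by
    rw [hAB.mul_pow, hA, one_mul]
  rw [h3, h2] at h1
  haveI : ExpChar (RF O) p := ExpChar.prime hp
  exact (iterateFrobenius_inj (RF O) p a (by simpa [iterateFrobenius_def] using h1)).symm

end Pool.Agent.Q222.TC
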