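import Pool.Agent.Q17.TC.Stm2
import Pool.Agent.Q17.TC.ASM3
import Pool.Agent.Q17.TC.IRN
import Pool.Agent.Q277.TC.Ort
import Pool.Agent.Q239.TC.EXT
import Pool.Agent.Q277.TC.Sq

/-!
# Project TC, job NOR: normalised lifts of `p`-regular elements
-/

set_option autoImplicit false

open scoped BigOperators Classical
open Pool.Agent.Helper884 Representation Pool.Agent.H254R3.IN Pool.Agent.Y62 Pool.Agent.Q21.CO

noncomputable section

namespace Pool.Agent.Q222.TC

open Pool.Agent.Q17.TC

theorem t_NOR : S_NOR := by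
  intro G W _ _ _ _ _ p _ N y H P d R hR hnv g hg u hu
  have := d.hN
  have := d.nK
  have hle : N ≤ KK N y := le_KK
  have hp : p.Prime := Fact.out
  have hn : 0 < orderOf g := orderOf_pos g
  have hRirr : IsIrr R.character := ⟨W, _, _, inferInstance, R, hR, rfl⟩
  have hres : IsIrr (fun n : N => R.character ⟨n, hle n.2⟩) :=
    ext1 (Pool.Agent.Q239.TC.t_EXT t_LFT t_SQ (t_IRN t_HOM)) hle d.idx' hRirr hnv
  let ρ : Representation ℂ N W := R.comp (Subgroup.inclusion hle)
  have hρc : ρ.character = fun n : N => R.character ⟨n, hle n.2⟩ := rfl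
  have hρ : ρ.IsIrreducible := irr_of_char t_HOM ρ (by rw [hρc]; exact hres)
  have hnt := irr_nontrivial ρ hρ
  have hLf : Lf ρ g u := by
    intro n w
    exact hu ⟨n, hle n.2⟩ ⟨(MulAut.conjNormal g n : N), hle (MulAut.conjNormal g n).2⟩ n.2
      (MulAut.conjNormal_apply g n) w
  obtain ⟨l, hl1, hl2⟩ := lam hle hρ (fun n => rfl) hLf
  -- iterate
  have hcom : ∀ (a : G) (x : KK N y), l (MulAut.conjNormal a x) = l x := by
    intro a x
    have h1 : l (MulAut.conjNormal a x * x⁻¹) = 1 := by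
      apply hl1
      have h2 := KK_com d.hcen a x x.2
      rw [Subgroup.coe_mul, MulAut.conjNormal_apply, Subgroup.coe_inv]
      exact h2
    rw [map_mul, map_inv, mul_inv_eq_one] at h1
    exact h1
  have hit : ∀ (k : ℕ) (x : KK N y) (w : W), ((u : W →ₗ[ℂ] W) ^ k) (R x w) =
      ((l x : ℂˣ) : ℂ) ^ k • R (MulAut.conjNormal (g ^ k) x) (((u : W →ₗ[ℂ] W) ^ k) w) := by
    intro k
    induction k with
    | zero =>
      intro x w
      have : MulAut.conjNormal (g ^ 0) x = x := by
        rw [pow_zero, map_one]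
        rfl
      rw [this]
      simp
    | succ k ih =>
      intro x w
      have h1 : MulAut.conjNormal (g ^ (k + 1)) x = MulAut.conjNormal g (MulAut.conjNormal (g ^ k) x) := by
        rw [pow_succ', map_mul]
        rfl
      rw [pow_succ', Module.End.mul_apply, ih, map_smul, Module.End.mul_apply, h1]
      have h2 := hl2 (MulAut.conjNormal (g ^ k) x) (((u : W →ₗ[ℂ] W) ^ k) w)
      change ((l x : ℂˣ) : ℂ) ^ k • u (R (MulAut.conjNormal (g ^ k) x)
        (((u : W →ₗ[ℂ] W) ^ k) w)) = _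
      rw [h2, hcom, smul_smul, pow_succ]
      rfl
  have hconj1 : ∀ x : KK N y, MulAut.conjNormal (g ^ orderOf g) x = x := by
    intro x
    rw [pow_orderOf_eq_one, map_one]
    rfl
  obtain ⟨c0, hc0⟩ := schur ρ hρ ((u : W →ₗ[ℂ] W) ^ orderOf g) (by
    intro m w
    have h1 := hit (orderOf g) ⟨m, hle m.2⟩ w
    rw [hl1 ⟨m, hle m.2⟩ m.2, hconj1, Units.val_one, one_pow, one_smul] at h1
    exact h1)
  have hinj : Function.Injective ((u : W →ₗ[ℂ] W) ^ orderOf g) := by
    rw [Module.End.coe_pow]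
    exact (u.injective).iterate _
  obtain ⟨w₀, hw₀⟩ := exists_ne (0 : W)
  have hc0ne : c0 ≠ 0 := by
    rintro rfl
    apply hw₀
    apply hinj
    rw [hc0]
    simp
  have hln : ∀ x : KK N y, l x ^ orderOf g = 1 := by
    intro x
    have h1 := hit (orderOf g) x w₀
    rw [hconj1, hc0] at h1
    simp only [LinearMap.smul_apply, LinearMap.id_apply, map_smul] at h1
    have h2 : R x w₀ ≠ 0 := by
      intro h3
      have h4 : R x⁻¹ (R x w₀) = w₀ := by
        rw [← Module.End.mul_apply, ← map_mul, inv_mul_cancel, map_one]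
        rfl
      rw [h3, map_zero] at h4
      exact hw₀ h4.symm
    rw [smul_smul] at h1
    have h3 := smul_left_injective ℂ h2 h1
    have h4 : ((l x : ℂˣ) : ℂ) ^ orderOf g = 1 := by
      have h5 : c0 * 1 = c0 * ((l x : ℂˣ) : ℂ) ^ orderOf g := by
        rw [mul_one, mul_comm]
        exact h3
      exact (mul_left_cancel₀ hc0ne h5).symm
    apply Units.ext
    rw [Units.val_pow_eq_pow_val, h4, Units.val_one]
  have hlp : ∀ x : KK N y, l x ^ p = 1 := by
    intro x
    rw [← map_pow]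
    apply hl1
    have : (N.subgroupOf (KK N y)).Normal := Subgroup.normal_subgroupOf
    have h1 := Subgroup.pow_index_mem (N.subgroupOf (KK N y)) x
    have h2 : (N.subgroupOf (KK N y)).index = p := d.idx
    rw [h2] at h1
    exact Subgroup.mem_subgroupOf.1 h1
  have hcop : Nat.Coprime p (orderOf g) := (Nat.Prime.coprime_iff_not_dvd hp).2 hg
  have hl : ∀ x : KK N y, l x = 1 := by
    intro x
    have h1 : orderOf (l x) ∣ p := orderOf_dvd_of_pow_eq_one (hlp x)
    have h2 : orderOf (l x) ∣ orderOf g := orderOf_dvd_of_pow_eq_one (hln x)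
    have h3 : orderOf (l x) ∣ 1 := by
      rw [← hcop.gcd_eq_one]
      exact Nat.dvd_gcd h1 h2
    exact orderOf_eq_one_iff.1 (Nat.dvd_one.1 h3)
  obtain ⟨c, hc⟩ := IsAlgClosed.exists_pow_nat_eq (c0⁻¹) hn
  have hcne : c ≠ 0 := by
    rintro rfl
    rw [zero_pow hn.ne'] at hc
    exact inv_ne_zero hc0ne hc.symm
  refine ⟨u.trans (LinearEquiv.smulOfNeZero ℂ W c hcne), ⟨c, hcne, fun w => rfl⟩, ?_, ?_⟩
  · intro x x' hx w
    change c • u (R x w) = R x' (c • u w)
    rw [hl2, hl, map_smul]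
    have : MulAut.conjNormal g x = x' := Subtype.ext (by rw [MulAut.conjNormal_apply, hx])
    rw [this]
    simp
  · have h1 : ((u.trans (LinearEquiv.smulOfNeZero ℂ W c hcne) : W ≃ₗ[ℂ] W) : W →ₗ[ℂ] W) =
        c • (u : W →ₗ[ℂ] W) := by
      ext w
      rfl
    rw [h1, smul_pow, hc0, smul_smul, hc, inv_mul_cancel₀ hc0ne, one_smul]
    rfl

end Pool.Agent.Q222.TC
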