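import Pool.Agent.Q17.TC.Stm2
import Pool.Agent.Q17.TC.IRN
import Pool.Agent.Q277.TC.Rep
import Pool.Agent.Q277.TC.Ort
import Pool.Agent.Q239.TC.MAT

/-!
# Project TC, job RP: pairs of lifts with the same traces up to a sign
-/

set_option autoImplicit false

open scoped BigOperators Classical
open Pool.Agent.Helper884 Representation Pool.Agent.H254R3.IN Pool.Agent.Y62 Pool.Agent.Q21.CO

noncomputable section

namespace Pool.Agent.Q222.TC

open Pool.Agent.Q17.TC Pool.Agent.Q239.TC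

section

variable {W V : Type} [AddCommGroup W] [Module ℂ W] [AddCommGroup V] [Module ℂ V]

lemma cj_comp (a c : V →ₗ[ℂ] V) (b d : W →ₗ[ℂ] W) :
    cj a b ∘ₗ cj c d = cj (a ∘ₗ c) (d ∘ₗ b) := by
  ext f w
  rfl

lemma cj_pow (a : V →ₗ[ℂ] V) (b : W →ₗ[ℂ] W) (k : ℕ) : (cj a b) ^ k = cj (a ^ k) (b ^ k) := by
  induction k with
  | zero => rfl
  | succ k ih =>
    rw [pow_succ, ih, pow_succ a, pow_succ' b]
    exact cj_comp _ _ _ _

lemma comp_sum' {ι X Y : Type} [AddCommGroup X] [Module ℂ X] [AddCommGroup Y] [Module ℂ Y]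
    (s : Finset ι) (f : Y →ₗ[ℂ] Y) (g : ι → X →ₗ[ℂ] Y) :
    f ∘ₗ ∑ i ∈ s, g i = ∑ i ∈ s, f ∘ₗ g i := by
  ext x
  simp

lemma op_eq_cj {W W' : Type} [AddCommGroup W] [Module ℂ W] [AddCommGroup W'] [Module ℂ W']
    (u : W ≃ₗ[ℂ] W) (u' : W' ≃ₗ[ℂ] W') :
    op u u' = cj (u : W →ₗ[ℂ] W) (u'.symm : W' →ₗ[ℂ] W') := by
  ext v w
  rw [op_apply]
  rfl

end

section

variable {A A' : Type} [Group A] [Group A'] {W W' : Type} [AddCommGroup W] [Module ℂ W]
  [AddCommGroup W'] [Module ℂ W'] {j : A' →* A} {B : Subgroup A} {R : Representation ℂ A W}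
  {R' : Representation ℂ A' W'}

lemma au_inv {a : MulAut A} {a' : MulAut A'} (h : Au j B a a') : Au j B a⁻¹ a'⁻¹ := by
  refine ⟨fun x => ?_, fun x => ?_⟩
  · have h1 := h.com (a'⁻¹ x)
    rw [MulAut.apply_inv_self] at h1
    rw [h1, MulAut.inv_apply_self]
  · have h1 := B.inv_mem (h.tr (a⁻¹ x))
    rw [MulAut.apply_inv_self, mul_inv_rev, inv_inv] at h1
    exact h1

/-- a pair of lifts stabilises the spaces of intertwiners -/
lemma Va_pres {a : MulAut A} {a' : MulAut A'} (h : Au j B a a') {u : W ≃ₗ[ℂ] W}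
    {u' : W' ≃ₗ[ℂ] W'} (hu : ∀ x w, u (R x w) = R (a x) (u w))
    (hu' : ∀ x w, u' (R' x w) = R' (a' x) (u' w)) {l : A' →* ℂˣ} (hl : ∀ x, j x ∈ B → l x = 1)
    (v : W' →ₗ[ℂ] W) (hv : v ∈ Va j R R' l) : op u u' v ∈ Va j R R' l := by
  intro x w
  obtain ⟨y, rfl⟩ := a'.surjective x
  have hly : l (a' y) = l y := by
    have h1 : l (a' y * y⁻¹) = 1 := by
      apply hl
      rw [map_mul, map_inv, h.com]
      exact h.tr (j y)
    rw [map_mul, map_inv, mul_inv_eq_one] at h1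
    exact h1
  rw [op_apply]
  change R (j (a' y)) (u (v (u'.symm w))) = _ • u (v (u'.symm (R' (a' y) w)))
  have h2 : u'.symm (R' (a' y) w) = R' y (u'.symm w) := by
    rw [LinearEquiv.symm_apply_eq, hu', LinearEquiv.apply_symm_apply]
  rw [h.com, ← hu, hv y, h2, map_smul, hly]

variable [Fintype A']

/-- the projection onto the intertwiners -/
def pj (j : A' →* A) (R : Representation ℂ A W) (R' : Representation ℂ A' W') (l : A' →* ℂˣ) :
    (W' →ₗ[ℂ] W) →ₗ[ℂ] (W' →ₗ[ℂ] W) :=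
  (Nat.card A' : ℂ)⁻¹ • ∑ x : A', ((l x : ℂˣ) : ℂ)⁻¹ • cj (R (j x)) (R' x⁻¹)

lemma pj_mem (l : A' →* ℂˣ) (v : W' →ₗ[ℂ] W) : pj j R R' l v ∈ Va j R R' l := by
  intro y w
  simp only [pj, LinearMap.smul_apply, LinearMap.sum_apply, map_smul, map_sum, cj_apply]
  rw [smul_comm]
  congr 1
  rw [Finset.smul_sum]
  refine Fintype.sum_equiv (Equiv.mulLeft y) _ _ fun x => ?_
  simp only [Equiv.coe_mulLeft, mul_inv_rev, map_mul, Module.End.mul_apply, Units.val_mul]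
  have h1 : R' y⁻¹ (R' y w) = w := by
    rw [← Module.End.mul_apply, ← map_mul, inv_mul_cancel, map_one]
    rfl
  have h2 : ((l y : ℂˣ) : ℂ) ≠ 0 := Units.ne_zero _
  rw [h1, smul_smul]
  congr 1
  field_simp

lemma pj_of_mem {l : A' →* ℂˣ} {v : W' →ₗ[ℂ] W} (hv : v ∈ Va j R R' l) :
    pj j R R' l v = v := by
  ext w
  simp only [pj, LinearMap.smul_apply, LinearMap.sum_apply, cj_apply]
  have h1 : ∀ x : A', ((l x : ℂˣ) : ℂ)⁻¹ • R (j x) (v (R' x⁻¹ w)) = v w := by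
    intro x
    rw [hv x, smul_smul, inv_mul_cancel₀ (Units.ne_zero _), one_smul, ← Module.End.mul_apply,
      ← map_mul, mul_inv_cancel, map_one]
    rfl
  simp only [h1]
  rw [Finset.sum_const, Finset.card_univ, ← Nat.card_eq_fintype_card, ← Nat.cast_smul_eq_nsmul ℂ,
    smul_smul, inv_mul_cancel₀ IC.cardG_ne, one_smul]

/-- the traces of the powers -/
lemma trace_fl [FiniteDimensional ℂ W] [FiniteDimensional ℂ W'] (l : A' →* ℂˣ) (u : W ≃ₗ[ℂ] W)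
    (u' : W' ≃ₗ[ℂ] W') (h : ∀ v ∈ Va j R R' l, op u u' v ∈ Va j R R' l) (k : ℕ) :
    LinearMap.trace ℂ (Va j R R' l) (((op u u').restrict h) ^ k) = (Nat.card A' : ℂ)⁻¹ *
      ∑ x : A', ((l x : ℂˣ) : ℂ)⁻¹ * (LinearMap.trace ℂ W (((u : W →ₗ[ℂ] W) ^ k) ∘ₗ R (j x)) *
        LinearMap.trace ℂ W' (R' x⁻¹ ∘ₗ ((u'.symm : W' →ₗ[ℂ] W') ^ k))) := by
  have h0 : ∀ (k : ℕ) (v : W' →ₗ[ℂ] W), v ∈ Va j R R' l → ((op u u') ^ k) v ∈ Va j R R' l := by
    intro k
    induction k with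
    | zero => intro v hv; exact hv
    | succ k ih =>
      intro v hv
      rw [pow_succ', Module.End.mul_apply]
      exact h _ (ih v hv)
  have h1 : ∀ v, (((op u u') ^ k) ∘ₗ pj j R R' l) v ∈ Va j R R' l := fun v => h0 k _ (pj_mem l v)
  have h2 := LinearMap.trace_restrict_eq_of_forall_mem (Va j R R' l)
    (((op u u') ^ k) ∘ₗ pj j R R' l) h1
  have h3 : (((op u u') ^ k) ∘ₗ pj j R R' l).restrict (fun v _ => h1 v) =
      ((op u u').restrict h) ^ k := by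
    rw [Module.End.pow_restrict k h (h0 k)]
    apply LinearMap.ext
    intro v
    apply Subtype.ext
    change ((op u u') ^ k) (pj j R R' l v) = ((op u u') ^ k) v
    rw [pj_of_mem v.2]
  rw [h3] at h2
  rw [h2]
  have h4 : ((op u u') ^ k) ∘ₗ pj j R R' l = (Nat.card A' : ℂ)⁻¹ •
      ∑ x : A', ((l x : ℂˣ) : ℂ)⁻¹ • cj (((u : W →ₗ[ℂ] W) ^ k) ∘ₗ R (j x))
        (R' x⁻¹ ∘ₗ ((u'.symm : W' →ₗ[ℂ] W') ^ k)) := by
    rw [op_eq_cj, cj_pow, pj, LinearMap.comp_smul, comp_sum']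
    congr 1
    refine Finset.sum_congr rfl fun x _ => ?_
    rw [LinearMap.comp_smul, cj_comp]
  rw [h4, map_smul, map_sum, smul_eq_mul]
  congr 1
  refine Finset.sum_congr rfl fun x _ => ?_
  rw [map_smul, trace_cj, smul_eq_mul]

/-- orthogonality for a twist -/
lemma orth_twist [FiniteDimensional ℂ W'] {B' : Subgroup A'}
    (hirr : IsIrr (fun b : B' => R'.character b)) {l : A' →* ℂˣ} (hl : ∀ x ∈ B', l x = 1)
    (hl1 : l ≠ 1) (C D : W' →ₗ[ℂ] W') :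
    ∑ x : A', ((l x : ℂˣ) : ℂ)⁻¹ * (LinearMap.trace ℂ W' (C ∘ₗ R' x) *
      LinearMap.trace ℂ W' (R' x⁻¹ ∘ₗ D)) = 0 := by
  let ρ : Representation ℂ B' W' := R'.comp B'.subtype
  have hρ : ρ.IsIrreducible := irr_of_char t_HOM ρ hirr
  obtain ⟨y, hy⟩ : ∃ y, l y ≠ 1 := by
    by_contra hcon
    push Not at hcon
    exact hl1 (MonoidHom.ext hcon)
  have hS : ∑ x : A', ((l x : ℂˣ) : ℂ)⁻¹ • cj (R' x) (R' x⁻¹) =
      (0 : (W' →ₗ[ℂ] W') →ₗ[ℂ] (W' →ₗ[ℂ] W')) := by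
    apply LinearMap.ext
    intro v
    set S : W' →ₗ[ℂ] W' := (∑ x : A', ((l x : ℂˣ) : ℂ)⁻¹ • cj (R' x) (R' x⁻¹)) v with hSdef
    have hcomm : ∀ (z : A') (w : W'), R' z (S w) = ((l z : ℂˣ) : ℂ) • S (R' z w) := by
      intro z w
      rw [hSdef]
      simp only [LinearMap.sum_apply, LinearMap.smul_apply, map_sum, map_smul, cj_apply]
      rw [Finset.smul_sum]
      refine Fintype.sum_equiv (Equiv.mulLeft z) _ _ fun x => ?_
      simp only [Equiv.coe_mulLeft, mul_inv_rev, map_mul, Module.End.mul_apply, Units.val_mul]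
      have h1 : R' z⁻¹ (R' z w) = w := by
        rw [← Module.End.mul_apply, ← map_mul, inv_mul_cancel, map_one]
        rfl
      have h2 : ((l z : ℂˣ) : ℂ) ≠ 0 := Units.ne_zero _
      rw [h1, smul_smul]
      congr 1
      field_simp
    obtain ⟨c, hc⟩ := schur ρ hρ S (by
      intro m w
      have h1 := hcomm m w
      rw [hl m m.2, Units.val_one, one_smul] at h1
      exact h1.symm)
    have hnt := irr_nontrivial ρ hρ
    obtain ⟨w₀, hw₀⟩ := exists_ne (0 : W')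
    have h1 := hcomm y w₀
    rw [hc] at h1
    simp only [LinearMap.smul_apply, LinearMap.id_apply, map_smul] at h1
    have h2 : R' y w₀ ≠ 0 := by
      intro h3
      have h4 : R' y⁻¹ (R' y w₀) = w₀ := by
        rw [← Module.End.mul_apply, ← map_mul, inv_mul_cancel, map_one]
        rfl
      rw [h3, map_zero] at h4
      exact hw₀ h4.symm
    rw [smul_smul] at h1
    have h3 := smul_left_injective ℂ h2 h1
    have h4 : c = 0 := by
      by_contra hc0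
      have h5 : (((l y : ℂˣ) : ℂ) - 1) * c = 0 := by
        rw [sub_mul, one_mul, ← h3, sub_self]
      rcases mul_eq_zero.1 h5 with h6 | h6
      · apply hy
        apply Units.ext
        rw [Units.val_one]
        exact sub_eq_zero.1 h6
      · exact hc0 h6
    rw [hc, h4, zero_smul]
    rfl
  have h1 : cj C D ∘ₗ ∑ x : A', ((l x : ℂˣ) : ℂ)⁻¹ • cj (R' x) (R' x⁻¹) = 0 := by
    rw [hS, LinearMap.comp_zero]
  have h2 := congrArg (LinearMap.trace ℂ (W' →ₗ[ℂ] W')) h1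
  rw [map_zero, comp_sum', map_sum] at h2
  rw [← h2]
  refine Finset.sum_congr rfl fun x _ => ?_
  rw [LinearMap.comp_smul, cj_comp, map_smul, trace_cj, smul_eq_mul]

end

theorem t_RP (det : S_DET) : S_RP := by
  intro A A' W W' _ _ _ _ _ _ _ _ _ _ p j B R R' ε d a a' hau u u' hu hu' htr l
  obtain ⟨l, hlB, hl1⟩ := l
  have hone : ∀ x, j x ∈ B → (1 : A' →* ℂˣ) x = 1 := fun _ _ => rfl
  have hp1 := Va_pres hau hu hu' hone
  have hpl := Va_pres hau hu hu' hlB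
  have hui : ∀ x w, u.symm (R x w) = R (a⁻¹ x) (u.symm w) := by
    intro x w
    rw [LinearEquiv.symm_apply_eq, hu, MulAut.apply_inv_self, LinearEquiv.apply_symm_apply]
  have hui' : ∀ x w, u'.symm (R' x w) = R' (a'⁻¹ x) (u'.symm w) := by
    intro x w
    rw [LinearEquiv.symm_apply_eq, hu', MulAut.apply_inv_self, LinearEquiv.apply_symm_apply]
  have hne : dT (Va j R R' l) u u' ≠ 0 :=
    dT_ne _ u u' hpl (Va_pres (au_inv hau) hui hui' hlB)
  have hcard : (Nat.card A' : ℂ) ≠ 0 := IC.cardG_ne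
  -- the sums over the group
  have hsym : ∀ k : ℕ, ((u' : W' →ₗ[ℂ] W') ^ k) ∘ₗ ((u'.symm : W' →ₗ[ℂ] W') ^ k) = LinearMap.id := by
    intro k
    have h8 : (u' : W' →ₗ[ℂ] W') * (u'.symm : W' →ₗ[ℂ] W') = 1 := by
      ext w
      simp
    have h9 : (u'.symm : W' →ₗ[ℂ] W') * (u' : W' →ₗ[ℂ] W') = 1 := by
      ext w
      simp
    have h10 : Commute (u' : W' →ₗ[ℂ] W') (u'.symm : W' →ₗ[ℂ] W') := by
      rw [Commute, SemiconjBy, h8, h9]
    have h11 := h10.mul_pow k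
    rw [h8, one_pow] at h11
    exact h11.symm
  have hc1 : ∀ k : ℕ, (Nat.card A' : ℂ)⁻¹ * ∑ x : A',
      (LinearMap.trace ℂ W' (((u' : W' →ₗ[ℂ] W') ^ k) ∘ₗ R' x) *
        LinearMap.trace ℂ W' (R' x⁻¹ ∘ₗ ((u'.symm : W' →ₗ[ℂ] W') ^ k))) = 1 := by
    intro k
    rw [t_ORT A' W' R' d.irr', hsym, LinearMap.trace_id]
    have := finrank_ne d.irr'
    field_simp
  have hcl : ∀ k : ℕ, ∑ x : A', ((l x : ℂˣ) : ℂ)⁻¹ *
      (LinearMap.trace ℂ W' (((u' : W' →ₗ[ℂ] W') ^ k) ∘ₗ R' x) *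
        LinearMap.trace ℂ W' (R' x⁻¹ ∘ₗ ((u'.symm : W' →ₗ[ℂ] W') ^ k))) = 0 := by
    intro k
    exact orth_twist (B' := B.comap j) d.irrB' (fun x hx => hlB x hx) hl1 _ _
  have hdiff : ∀ k : ℕ, LinearMap.trace ℂ (Va j R R' 1) (((op u u').restrict hp1) ^ k) -
      LinearMap.trace ℂ (Va j R R' l) (((op u u').restrict hpl) ^ k) = ε := by
    intro k
    rw [trace_fl, trace_fl, ← mul_sub, ← Finset.sum_sub_distrib]
    have h1 : ∀ x : A', ((((1 : A' →* ℂˣ) x : ℂˣ) : ℂ)⁻¹ *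
        (LinearMap.trace ℂ W (((u : W →ₗ[ℂ] W) ^ k) ∘ₗ R (j x)) *
          LinearMap.trace ℂ W' (R' x⁻¹ ∘ₗ ((u'.symm : W' →ₗ[ℂ] W') ^ k))) -
        ((l x : ℂˣ) : ℂ)⁻¹ * (LinearMap.trace ℂ W (((u : W →ₗ[ℂ] W) ^ k) ∘ₗ R (j x)) *
          LinearMap.trace ℂ W' (R' x⁻¹ ∘ₗ ((u'.symm : W' →ₗ[ℂ] W') ^ k)))) =
        ε * ((LinearMap.trace ℂ W' (((u' : W' →ₗ[ℂ] W') ^ k) ∘ₗ R' x) *
          LinearMap.trace ℂ W' (R' x⁻¹ ∘ₗ ((u'.symm : W' →ₗ[ℂ] W') ^ k))) -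
        ((l x : ℂˣ) : ℂ)⁻¹ * (LinearMap.trace ℂ W' (((u' : W' →ₗ[ℂ] W') ^ k) ∘ₗ R' x) *
          LinearMap.trace ℂ W' (R' x⁻¹ ∘ₗ ((u'.symm : W' →ₗ[ℂ] W') ^ k)))) := by
      intro x
      by_cases hx : j x ∈ B
      · rw [hlB x hx]
        simp
      · have h2 := htr x hx k
        rw [LinearMap.trace_comp_comm' _ (R (j x)), LinearMap.trace_comp_comm' _ (R' x)] at h2
        rw [h2, MonoidHom.one_apply, Units.val_one, inv_one]
        ring
    rw [Finset.sum_congr rfl fun x _ => h1 x, ← Finset.mul_sum, Finset.sum_sub_distrib, hcl,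
      sub_zero, mul_left_comm, hc1, mul_one]
  have hdet : dT (Va j R R' 1) u u' = dT (Va j R R' l) u u' := by
    rw [dT_eq _ _ _ hp1, dT_eq _ _ _ hpl]
    rcases d.eps with h | ⟨h, -⟩
    · refine det _ _ _ _ 1 fun k => ?_
      have h1 := hdiff k
      rw [h] at h1
      push_cast at h1 ⊢
      linear_combination h1
    · refine (det _ _ _ _ 1 fun k => ?_).symm
      have h1 := hdiff k
      rw [h] at h1
      push_cast at h1 ⊢
      linear_combination -h1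
  change dT (Va j R R' 1) u u' / dT (Va j R R' l) u u' = 1
  rw [hdet, div_self hne]

end Pool.Agent.Q222.TC
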