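import Pool.Agent.Q17.TC.Stm2
import Pool.Agent.Q239.TC.MAT

/-!
# Project TC, job TRP: transport of the determinants along semilinear bijections
-/

set_option autoImplicit false

open scoped BigOperators Classical
open Pool.Agent.Helper884 Representation Pool.Agent.H254R3.IN Pool.Agent.Y62 Pool.Agent.Q21.CO

noncomputable section

namespace Pool.Agent.Q222.TC

open Pool.Agent.Q17.TC Pool.Agent.Q239.TC

lemma semi_symm {W W₂ : Type} [AddCommGroup W] [Module ℂ W] [AddCommGroup W₂] [Module ℂ W₂]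
    {σ : ℂ ≃+* ℂ} {e : W ≃+ W₂} (he : ∀ (c : ℂ) w, e (c • w) = σ c • e w) (c : ℂ) (w : W₂) :
    e.symm (c • w) = σ.symm c • e.symm w := by
  rw [AddEquiv.symm_apply_eq, he, RingEquiv.apply_symm_apply, AddEquiv.apply_symm_apply]

/-- determinants of semilinearly conjugate endomorphisms -/
theorem det_semi {V V₂ : Type} [AddCommGroup V] [Module ℂ V] [FiniteDimensional ℂ V]
    [AddCommGroup V₂] [Module ℂ V₂] (σ : ℂ ≃+* ℂ) (Φ : V ≃+ V₂)
    (hΦ : ∀ (c : ℂ) v, Φ (c • v) = σ c • Φ v) (f : V →ₗ[ℂ] V) (f₂ : V₂ →ₗ[ℂ] V₂)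
    (hf : ∀ v, f₂ (Φ v) = Φ (f v)) : LinearMap.det f₂ = σ (LinearMap.det f) := by
  let b := Module.finBasis ℂ V
  let E : V₂ ≃ₗ[ℂ] (Fin (Module.finrank ℂ V) → ℂ) :=
    { toFun := fun v => fun i => σ (b.equivFun (Φ.symm v) i)
      map_add' := fun v w => by
        funext i
        simp
      map_smul' := fun c v => by
        funext i
        rw [semi_symm hΦ, map_smul]
        simp
      invFun := fun a => Φ (b.equivFun.symm fun i => σ.symm (a i))
      left_inv := fun v => by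
        simp
      right_inv := fun a => by
        funext i
        change σ (b.equivFun (Φ.symm (Φ (b.equivFun.symm fun i => σ.symm (a i)))) i) = a i
        rw [AddEquiv.symm_apply_apply, LinearEquiv.apply_symm_apply, RingEquiv.apply_symm_apply] }
  let b₂ := Module.Basis.ofEquivFun E
  have hb₂ : ∀ j, b₂ j = Φ (b j) := by
    intro j
    rw [Module.Basis.coe_ofEquivFun]
    change Φ (b.equivFun.symm fun i => σ.symm ((Pi.single j (1 : ℂ) :
      Fin (Module.finrank ℂ V) → ℂ) i)) = Φ (b j)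
    congr 1
    rw [LinearEquiv.symm_apply_eq]
    funext i
    rw [Module.Basis.equivFun_apply, Module.Basis.repr_self]
    by_cases hij : i = j
    · subst hij
      simp
    · rw [Pi.single_eq_of_ne hij, map_zero, Finsupp.single_eq_of_ne hij]
  rw [← LinearMap.det_toMatrix b₂, ← LinearMap.det_toMatrix b]
  have h1 : LinearMap.toMatrix b₂ b₂ f₂ = (LinearMap.toMatrix b b f).map σ := by
    ext i j
    rw [LinearMap.toMatrix_apply, Matrix.map_apply, LinearMap.toMatrix_apply, hb₂, hf]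
    have h2 : b₂.repr (Φ (f (b j))) i = E (Φ (f (b j))) i := by
      rw [← Module.Basis.equivFun_apply, Module.Basis.equivFun_ofEquivFun]
    rw [h2]
    change σ (b.equivFun (Φ.symm (Φ (f (b j)))) i) = _
    rw [AddEquiv.symm_apply_apply, Module.Basis.equivFun_apply]
  rw [h1]
  exact (RingHom.map_det (σ : ℂ →+* ℂ) _).symm

section

variable {W W' W₂ W₂' : Type} [AddCommGroup W] [Module ℂ W] [AddCommGroup W'] [Module ℂ W']
  [AddCommGroup W₂] [Module ℂ W₂] [AddCommGroup W₂'] [Module ℂ W₂']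

/-- the map `v ↦ e v e'⁻¹` -/
def cnj (σ : ℂ ≃+* ℂ) (e : W ≃+ W₂) (e' : W' ≃+ W₂') (he : ∀ (c : ℂ) w, e (c • w) = σ c • e w)
    (he' : ∀ (c : ℂ) w, e' (c • w) = σ c • e' w) (v : W' →ₗ[ℂ] W) : W₂' →ₗ[ℂ] W₂ where
  toFun w := e (v (e'.symm w))
  map_add' a b := by simp
  map_smul' c a := by
    rw [semi_symm he', map_smul, he]
    simp

end

theorem t_TRP : S_TRP := by
  intro A A' A₂ A₂' W W' W₂ W₂' _ _ _ _ _ _ _ _ _ _ _ _ _ _ _ _ j j₂ α α' hj R R' R₂ R₂' σ e e'
    he he' m hR hR' u u' u₂ u₂' hu hu' l l₂ hl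
  have hus : ∀ w, u₂'.symm (e' w) = e' (u'.symm w) := by
    intro w
    rw [LinearEquiv.symm_apply_eq, hu', LinearEquiv.apply_symm_apply]
  have hmem : ∀ v, v ∈ Va j R R' l → cnj σ e e' he he' v ∈ Va j₂ R₂ R₂' l₂ := by
    intro v hv x w
    obtain ⟨w, rfl⟩ := e'.surjective w
    have hm : ((m (j₂ x) : ℂˣ) : ℂ) ≠ 0 := Units.ne_zero _
    have h1 : R₂ (j₂ x) (e (v w)) = ((m (j₂ x) : ℂˣ) : ℂ)⁻¹ • e (R (α (j₂ x)) (v w)) := by
      rw [hR, smul_smul, inv_mul_cancel₀ hm, one_smul]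
    have h2 : R₂' x (e' w) = ((m (j₂ x) : ℂˣ) : ℂ)⁻¹ • e' (R' (α' x) w) := by
      rw [hR', smul_smul, inv_mul_cancel₀ hm, one_smul]
    rw [h2, map_smul]
    change R₂ (j₂ x) (e (v (e'.symm (e' w)))) = _ • _ • e (v (e'.symm (e' (R' (α' x) w))))
    rw [AddEquiv.symm_apply_apply, AddEquiv.symm_apply_apply, h1, hj, hv (α' x) w, he, hl,
      smul_smul, smul_smul, mul_comm]
  have hmem' : ∀ v, v ∈ Va j₂ R₂ R₂' l₂ →
      cnj σ.symm e.symm e'.symm (semi_symm he) (semi_symm he') v ∈ Va j R R' l := by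
    intro v hv x w
    obtain ⟨x, rfl⟩ := α'.surjective x
    have h1 := hv x (e' w)
    have h2 : e (R (j (α' x)) (e.symm (v (e' w)))) =
        ((m (j₂ x) : ℂˣ) : ℂ) • R₂ (j₂ x) (v (e' w)) := by
      rw [← hj, hR, AddEquiv.apply_symm_apply]
    change R (j (α' x)) (e.symm (v (e' w))) = _ • e.symm (v (e' (R' (α' x) w)))
    apply e.injective
    rw [h2, h1, he, AddEquiv.apply_symm_apply, hR', map_smul, hl, smul_smul, smul_smul, mul_comm]
  have hinv1 : ∀ v, cnj σ.symm e.symm e'.symm (semi_symm he) (semi_symm he')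
      (cnj σ e e' he he' v) = v := by
    intro v
    ext w
    change e.symm (e (v (e'.symm (e' w)))) = v w
    rw [AddEquiv.symm_apply_apply, AddEquiv.symm_apply_apply]
  have hinv2 : ∀ v, cnj σ e e' he he' (cnj σ.symm e.symm e'.symm (semi_symm he)
      (semi_symm he') v) = v := by
    intro v
    ext w
    change e (e.symm (v (e' (e'.symm w)))) = v w
    rw [AddEquiv.apply_symm_apply, AddEquiv.apply_symm_apply]
  have hop : ∀ v, op u₂ u₂' (cnj σ e e' he he' v) = cnj σ e e' he he' (op u u' v) := by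
    intro v
    ext w
    obtain ⟨w, rfl⟩ := e'.surjective w
    rw [op_apply, op_apply]
    change u₂ (e (v (e'.symm (u₂'.symm (e' w))))) = e (u (v (u'.symm (e'.symm (e' w)))))
    rw [hus, hu, AddEquiv.symm_apply_apply, AddEquiv.symm_apply_apply]
  by_cases h : ∀ v ∈ Va j R R' l, op u u' v ∈ Va j R R' l
  · have h₂ : ∀ v ∈ Va j₂ R₂ R₂' l₂, op u₂ u₂' v ∈ Va j₂ R₂ R₂' l₂ := by
      intro v hv
      have h1 := hmem _ (h _ (hmem' v hv))
      rw [← hop, hinv2] at h1
      exact h1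
    rw [dT_eq _ _ _ h, dT_eq _ _ _ h₂]
    let Φ : Va j R R' l ≃+ Va j₂ R₂ R₂' l₂ :=
      { toFun := fun v => ⟨cnj σ e e' he he' v, hmem v v.2⟩
        invFun := fun v => ⟨cnj σ.symm e.symm e'.symm (semi_symm he) (semi_symm he') v,
          hmem' v v.2⟩
        left_inv := fun v => Subtype.ext (hinv1 v)
        right_inv := fun v => Subtype.ext (hinv2 v)
        map_add' := fun v w => by
          apply Subtype.ext
          ext x
          change e ((v + w : W' →ₗ[ℂ] W) (e'.symm x)) = e ((v : W' →ₗ[ℂ] W) (e'.symm x)) +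
            e ((w : W' →ₗ[ℂ] W) (e'.symm x))
          rw [LinearMap.add_apply, map_add] }
    refine det_semi σ Φ (fun c v => ?_) _ _ (fun v => ?_)
    · apply Subtype.ext
      ext x
      change e ((c • v : W' →ₗ[ℂ] W) (e'.symm x)) = σ c • e ((v : W' →ₗ[ℂ] W) (e'.symm x))
      rw [LinearMap.smul_apply, he]
    · apply Subtype.ext
      exact hop v
  · have h₂ : ¬ ∀ v ∈ Va j₂ R₂ R₂' l₂, op u₂ u₂' v ∈ Va j₂ R₂ R₂' l₂ := by
      intro h2
      apply h
      intro v hv
      have h1 := hmem' _ (h2 _ (hmem v hv))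
      rw [hop, hinv1] at h1
      exact h1
    have e1 : dT (Va j R R' l) u u' = 0 := dif_neg h
    have e2 : dT (Va j₂ R₂ R₂' l₂) u₂ u₂' = 0 := dif_neg h₂
    rw [e1, e2, map_zero]

end Pool.Agent.Q222.TC
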